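import Mathlib

namespace Pool.Agent.Helper20

/-- `Cp X` is the real vector space of all continuous functions `X → ℝ`, as a linear subspace of
the product `X → ℝ`. As a type it carries the subspace topology from the product `X → ℝ`, i.e. the
topology of pointwise convergence. -/
def Cp (X : Type*) [TopologicalSpace X] : Submodule ℝ (X → ℝ) where
  carrier := {f | Continuous f}
  add_mem' := fun hf hg => Continuous.add hf hg
  zero_mem' := continuous_zero
  smul_mem' := fun c _ hf => Continuous.const_smul hf c

end Pool.Agent.Helper20
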