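import Mathlib
import Pool.Agent.Helper20.CpDef

/-!
# A continuous bijection `C_p((ℕ × βℕ) minus a point) → C_p(ℕ × βℕ)`

Outline. Let `p` be a free ultrafilter on `ℕ`, `X = ℕ × βℕ`, `Y = X minus (0, p)`.

* Part A constructs a bijection `f : ℓ_∞ × ℝ^ℕ → ℝ^ℕ` that is the eventually constant pointwise
  limit of maps `F m` that are continuous for the topology of pointwise convergence.
* Part B: continuous functions on `Y` are bounded on each `{i} × βℕ` (minus the point), so they
  are the same as sequences of bounded real sequences; `Y` is not sigma-compact.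
* Part C: restriction `C_p(X) → C_p(Y)` is a linear continuous bijection. In the other direction,
  `g ↦ g - (1/2) shift g` is a continuous linear bijection of `C_p(βℕ)` whose inverse is
  discontinuous; it allows one to hide the value of the discontinuous bijection `f`.
-/

namespace Pool.Agent.Helper20.CpCondense

open Filter Topology Set

noncomputable section

/-! ### Part A: the map `f` on sequences -/

abbrev Seq := ℕ → ℝ

/-- interleave two sequences -/
def join (x y : Seq) : Seq := fun n => Sum.elim x y (Equiv.natSumNatEquivNat.symm n)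
def L (e : Seq) : Seq := fun n => e (Equiv.natSumNatEquivNat (Sum.inl n))
def R (e : Seq) : Seq := fun n => e (Equiv.natSumNatEquivNat (Sum.inr n))

@[simp] lemma L_join (x y : Seq) : L (join x y) = x := by
  funext n; simp [L, join]
@[simp] lemma R_join (x y : Seq) : R (join x y) = y := by
  funext n; simp [R, join]
@[simp] lemma join_L_R (e : Seq) : join (L e) (R e) = e := by
  funext n
  unfold join
  rcases h : Equiv.natSumNatEquivNat.symm n with m | m
  · simp only [Sum.elim_inl, L]
    rw [← h, Equiv.apply_symm_apply]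
  · simp only [Sum.elim_inr, R]
    rw [← h, Equiv.apply_symm_apply]

lemma join_inj {x y x' y' : Seq} (h : join x y = join x' y') : x = x' ∧ y = y' := by
  constructor
  · have := congrArg L h; simpa using this
  · have := congrArg R h; simpa using this

lemma continuous_L : Continuous L := continuous_pi fun _ => continuous_apply _
lemma continuous_R : Continuous R := continuous_pi fun _ => continuous_apply _
lemma continuous_join : Continuous fun p : Seq × Seq => join p.1 p.2 := by
  refine continuous_pi fun n => ?_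
  unfold join
  rcases h : Equiv.natSumNatEquivNat.symm n with m | m
  · simp only [Sum.elim_inl]
    exact (continuous_apply m).comp continuous_fst
  · simp only [Sum.elim_inr]
    exact (continuous_apply m).comp continuous_snd

def Bdd (x : Seq) : Prop := ∃ C : ℝ, ∀ n, |x n| ≤ C

/-- `d n z` is positive exactly when some `|z i| > n`. -/
def d (n : ℕ) (z : Seq) : ℝ := ∑' i : ℕ, (1/2 : ℝ)^i * min 1 (max 0 (|z i| - n))

lemma term_nonneg (n : ℕ) (z : Seq) (i : ℕ) : 0 ≤ (1/2 : ℝ)^i * min 1 (max 0 (|z i| - n)) := by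
  positivity

lemma term_le (n : ℕ) (z : Seq) (i : ℕ) : (1/2 : ℝ)^i * min 1 (max 0 (|z i| - n)) ≤ (1/2 : ℝ)^i := by
  have h : min 1 (max 0 (|z i| - (n:ℝ))) ≤ 1 := min_le_left _ _
  have h2 : (0:ℝ) ≤ (1/2 : ℝ)^i := by positivity
  nlinarith

lemma summable_term (n : ℕ) (z : Seq) : Summable fun i : ℕ => (1/2 : ℝ)^i * min 1 (max 0 (|z i| - n)) :=
  Summable.of_nonneg_of_le (term_nonneg n z) (term_le n z) summable_geometric_two

lemma continuous_d (n : ℕ) : Continuous (d n) := by
  refine continuous_tsum (u := fun i : ℕ => (1/2 : ℝ)^i) ?_ summable_geometric_two ?_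
  · intro i
    fun_prop
  · intro i z
    rw [Real.norm_of_nonneg (term_nonneg n z i)]
    exact term_le n z i

lemma d_pos_iff (n : ℕ) (z : Seq) : d n z ≠ 0 ↔ ∃ i, (n : ℝ) < |z i| := by
  constructor
  · intro h
    by_contra hcon
    push Not at hcon
    apply h
    unfold d
    have : ∀ i, (1/2 : ℝ)^i * min 1 (max 0 (|z i| - n)) = 0 := by
      intro i
      have : max 0 (|z i| - (n:ℝ)) = 0 := max_eq_left (by linarith [hcon i])
      rw [this]; simp
    rw [tsum_congr this, tsum_zero]
  · rintro ⟨i, hi⟩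
    have hpos : 0 < (1/2 : ℝ)^i * min 1 (max 0 (|z i| - n)) := by
      have : 0 < min 1 (max 0 (|z i| - (n:ℝ))) := by
        apply lt_min one_pos
        apply lt_max_of_lt_right; linarith
      positivity
    have := (summable_term n z).tsum_pos (term_nonneg n z) i hpos
    exact this.ne'

def C0 (e : Seq) : Prop := ∀ n, L (R e) n * d n (L e) = 1

/-- the exceptional closed set -/
def C (x e : Seq) : Prop := (∃ k : ℕ, ∀ n, x n = k) ∧ C0 e

open Classical in
/-- the bijection `f : ℓ_∞ × ℝ^ω → ℝ^ω`. -/
def f (x e : Seq) : Seq :=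
  if C x e then (if x 0 = 0 then join (L e) (R (R e)) else join (fun n => x n - 1) e)
  else join x e

lemma unbdd_of_C0 {e : Seq} (h : C0 e) : ¬ Bdd (L e) := by
  rintro ⟨K, hK⟩
  obtain ⟨n, hn⟩ := exists_nat_gt K
  have h1 : d n (L e) ≠ 0 := by
    intro h0
    have := h n
    rw [h0, mul_zero] at this
    exact zero_ne_one this
  obtain ⟨i, hi⟩ := (d_pos_iff n (L e)).1 h1
  linarith [hK i]

lemma bdd_const (c : ℝ) : Bdd (fun _ => c) := ⟨|c|, fun _ => le_rfl⟩

lemma f_injective {x e x' e' : Seq} (hx : Bdd x) (hx' : Bdd x') (h : f x e = f x' e') :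
    x = x' ∧ e = e' := by
  unfold f at h
  by_cases hc : C x e <;> by_cases hc' : C x' e'
  · rw [if_pos hc, if_pos hc'] at h
    obtain ⟨⟨k, hk⟩, h0⟩ := hc
    obtain ⟨⟨k', hk'⟩, h0'⟩ := hc'
    by_cases hz : x 0 = 0 <;> by_cases hz' : x' 0 = 0
    · rw [if_pos hz, if_pos hz'] at h
      obtain ⟨h1, h2⟩ := join_inj h
      constructor
      · funext n
        rw [hk n, hk' n, ← hk 0, ← hk' 0, hz, hz']
      · have h3 : L (R e) = L (R e') := by
          funext n
          have a1 := h0 n
          have a2 := h0' n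
          rw [h1] at a1
          have hne : d n (L e') ≠ 0 := by
            intro hh; rw [hh, mul_zero] at a2; exact zero_ne_one a2
          have : L (R e) n * d n (L e') = L (R e') n * d n (L e') := by rw [a1, a2]
          exact mul_right_cancel₀ hne this
        have h4 : R e = R e' := by
          rw [← join_L_R (R e), ← join_L_R (R e'), h3, h2]
        rw [← join_L_R e, ← join_L_R e', h1, h4]
    · rw [if_pos hz, if_neg hz'] at h
      obtain ⟨h1, h2⟩ := join_inj h
      exfalso
      apply unbdd_of_C0 h0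
      rw [h1]
      have : (fun n => x' n - 1) = fun _ => ((k':ℝ) - 1) := by funext n; rw [hk' n]
      rw [this]; exact bdd_const _
    · rw [if_neg hz, if_pos hz'] at h
      obtain ⟨h1, h2⟩ := join_inj h
      exfalso
      apply unbdd_of_C0 h0'
      rw [← h1]
      have : (fun n => x n - 1) = fun _ => ((k:ℝ) - 1) := by funext n; rw [hk n]
      rw [this]; exact bdd_const _
    · rw [if_neg hz, if_neg hz'] at h
      obtain ⟨h1, h2⟩ := join_inj h
      refine ⟨?_, h2⟩
      funext n
      have := congrFun h1 n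
      linarith
  · rw [if_pos hc, if_neg hc'] at h
    obtain ⟨⟨k, hk⟩, h0⟩ := hc
    exfalso
    by_cases hz : x 0 = 0
    · rw [if_pos hz] at h
      obtain ⟨h1, h2⟩ := join_inj h
      apply unbdd_of_C0 h0
      rw [h1]; exact hx'
    · rw [if_neg hz] at h
      obtain ⟨h1, h2⟩ := join_inj h
      apply hc'
      refine ⟨⟨k - 1, fun n => ?_⟩, by rw [← h2]; exact h0⟩
      rw [← h1]
      simp only
      rw [hk n]
      have hk0 : k ≠ 0 := by
        intro hh; apply hz; rw [hk 0, hh]; simp
      rw [Nat.cast_sub (Nat.one_le_iff_ne_zero.2 hk0)]; simp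
  · rw [if_neg hc, if_pos hc'] at h
    obtain ⟨⟨k, hk⟩, h0⟩ := hc'
    exfalso
    by_cases hz : x' 0 = 0
    · rw [if_pos hz] at h
      obtain ⟨h1, h2⟩ := join_inj h
      apply unbdd_of_C0 h0
      rw [← h1]; exact hx
    · rw [if_neg hz] at h
      obtain ⟨h1, h2⟩ := join_inj h
      apply hc
      refine ⟨⟨k - 1, fun n => ?_⟩, by rw [h2]; exact h0⟩
      rw [h1]
      simp only
      rw [hk n]
      have hk0 : k ≠ 0 := by
        intro hh; apply hz; rw [hk 0, hh]; simp
      rw [Nat.cast_sub (Nat.one_le_iff_ne_zero.2 hk0)]; simp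
  · rw [if_neg hc, if_neg hc'] at h
    exact join_inj h

lemma f_surjective (b : Seq) : ∃ x e, Bdd x ∧ f x e = b := by
  by_cases hb : Bdd (L b)
  · by_cases hc : C (L b) (R b)
    · obtain ⟨⟨k, hk⟩, h0⟩ := hc
      refine ⟨fun _ => (k:ℝ) + 1, R b, bdd_const _, ?_⟩
      unfold f
      rw [if_pos ⟨⟨k+1, fun n => by push_cast; rfl⟩, h0⟩, if_neg (by positivity)]
      have : (fun _ : ℕ => (k:ℝ) + 1 - 1) = L b := by
        funext n; rw [hk n]; ring
      rw [this, join_L_R]
    · refine ⟨L b, R b, hb, ?_⟩
      unfold f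
      rw [if_neg hc, join_L_R]
  · refine ⟨fun _ => 0, join (L b) (join (fun n => (d n (L b))⁻¹) (R b)), bdd_const _, ?_⟩
    unfold f
    rw [if_pos, if_pos rfl]
    · simp
    · refine ⟨⟨0, fun n => by simp⟩, ?_⟩
      intro n
      simp only [L_join, R_join]
      apply inv_mul_cancel₀
      rw [d_pos_iff]
      by_contra hcon
      push Not at hcon
      exact hb ⟨n, hcon⟩

/-! ### Discrete approximation of `f` by continuous maps -/

def D (n : ℕ) (x e : Seq) : ℝ :=
  |x n - x 0| + |Real.sin (Real.pi * x 0)| + max 0 (-(x 0)) + |L (R e) n * d n (L e) - 1|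

lemma D_nonneg (n : ℕ) (x e : Seq) : 0 ≤ D n x e := by unfold D; positivity

lemma continuous_D (n : ℕ) : Continuous fun p : Seq × Seq => D n p.1 p.2 := by
  unfold D
  have h1 : Continuous fun p : Seq × Seq => p.1 n := (continuous_apply n).comp continuous_fst
  have h2 : Continuous fun p : Seq × Seq => p.1 0 := (continuous_apply 0).comp continuous_fst
  have h3 : Continuous fun p : Seq × Seq => L (R p.2) n :=
    (continuous_apply n).comp (continuous_L.comp (continuous_R.comp continuous_snd))
  have h4 : Continuous fun p : Seq × Seq => d n (L p.2) :=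
    (continuous_d n).comp (continuous_L.comp continuous_snd)
  fun_prop

lemma C_iff (x e : Seq) : C x e ↔ ∀ n, D n x e = 0 := by
  constructor
  · rintro ⟨⟨k, hk⟩, h0⟩ n
    unfold D
    rw [hk n, hk 0, h0 n]
    have : Real.sin (Real.pi * k) = 0 := by rw [mul_comm]; exact Real.sin_nat_mul_pi k
    rw [this]
    simp
  · intro h
    have hx : ∀ n, x n = x 0 := by
      intro n
      have := h n
      unfold D at this
      have h1 : |x n - x 0| = 0 := by
        have a := abs_nonneg (x n - x 0)
        have b := abs_nonneg (Real.sin (Real.pi * x 0))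
        have c := le_max_left 0 (-(x 0))
        have e1 := abs_nonneg (L (R e) n * d n (L e) - 1)
        linarith
      linarith [abs_eq_zero.1 h1]
    have hs : Real.sin (Real.pi * x 0) = 0 := by
      have := h 0
      unfold D at this
      have h1 : |Real.sin (Real.pi * x 0)| = 0 := by
        have a := abs_nonneg (x 0 - x 0)
        have b := abs_nonneg (Real.sin (Real.pi * x 0))
        have c := le_max_left 0 (-(x 0))
        have e1 := abs_nonneg (L (R e) 0 * d 0 (L e) - 1)
        linarith
      exact abs_eq_zero.1 h1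
    have hm : 0 ≤ x 0 := by
      have := h 0
      unfold D at this
      have h1 : max 0 (-(x 0)) = 0 := by
        have a := abs_nonneg (x 0 - x 0)
        have b := abs_nonneg (Real.sin (Real.pi * x 0))
        have c := le_max_left 0 (-(x 0))
        have e1 := abs_nonneg (L (R e) 0 * d 0 (L e) - 1)
        linarith
      have := le_max_right 0 (-(x 0))
      linarith
    obtain ⟨m, hm'⟩ := Real.sin_eq_zero_iff.1 hs
    have hmx : (m:ℝ) = x 0 := by
      have hpi := Real.pi_ne_zero
      have : Real.pi * (m:ℝ) = Real.pi * x 0 := by rw [← hm']; ring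
      exact mul_left_cancel₀ hpi this
    have hm0 : 0 ≤ m := by
      have : (0:ℝ) ≤ (m:ℝ) := by rw [hmx]; exact hm
      exact_mod_cast this
    refine ⟨⟨m.toNat, fun n => ?_⟩, ?_⟩
    · rw [hx n, ← hmx]
      have : ((m.toNat : ℤ) : ℝ) = (m : ℝ) := by rw [Int.toNat_of_nonneg hm0]
      rw [← this]; exact Int.cast_natCast _
    · intro n
      have := h n
      unfold D at this
      have h1 : |L (R e) n * d n (L e) - 1| = 0 := by
        have a := abs_nonneg (x n - x 0)
        have b := abs_nonneg (Real.sin (Real.pi * x 0))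
        have c := le_max_left 0 (-(x 0))
        have e1 := abs_nonneg (L (R e) n * d n (L e) - 1)
        linarith
      linarith [abs_eq_zero.1 h1]

def beta (m : ℕ) (x e : Seq) : ℝ := min 1 (m * ∑ n ∈ Finset.range m, D n x e)

lemma continuous_beta (m : ℕ) : Continuous fun p : Seq × Seq => beta m p.1 p.2 := by
  unfold beta
  refine continuous_const.min (continuous_const.mul ?_)
  exact continuous_finsetSum _ fun n _ => continuous_D n

def lam (x : Seq) : ℝ := max 0 (1 - |x 0|)

/-- the continuous extension of `f` restricted to the exceptional closed set -/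
def fC (x e : Seq) : Seq := fun i =>
  lam x * join (L e) (R (R e)) i + (1 - lam x) * join (fun n => x n - 1) e i

def F (m : ℕ) (x e : Seq) : Seq := fun i =>
  (1 - beta m x e) * fC x e i + beta m x e * join x e i

lemma continuous_F (m : ℕ) : Continuous fun p : Seq × Seq => F m p.1 p.2 := by
  refine continuous_pi fun i => ?_
  unfold F fC
  have h1 : Continuous fun p : Seq × Seq => lam p.1 := by
    unfold lam
    have : Continuous fun p : Seq × Seq => p.1 0 := (continuous_apply 0).comp continuous_fst
    fun_prop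
  have h2 : Continuous fun p : Seq × Seq => join (L p.2) (R (R p.2)) i := by
    have : Continuous fun p : Seq × Seq => (L p.2, R (R p.2)) :=
      (continuous_L.comp continuous_snd).prodMk
        (continuous_R.comp (continuous_R.comp continuous_snd))
    exact (continuous_apply i).comp (continuous_join.comp this)
  have h3 : Continuous fun p : Seq × Seq => join (fun n => p.1 n - 1) p.2 i := by
    have : Continuous fun p : Seq × Seq => ((fun n => p.1 n - 1 : Seq), p.2) := by
      refine Continuous.prodMk ?_ continuous_snd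
      refine continuous_pi fun n => ?_
      exact ((continuous_apply n).comp continuous_fst).sub continuous_const
    exact (continuous_apply i).comp (continuous_join.comp this)
  have h4 : Continuous fun p : Seq × Seq => join p.1 p.2 i :=
    (continuous_apply i).comp continuous_join
  have h5 := continuous_beta m
  fun_prop

lemma F_eventually (x e : Seq) : ∃ N, ∀ m, N ≤ m → F m x e = f x e := by
  by_cases hc : C x e
  · refine ⟨0, fun m _ => ?_⟩
    have hD := (C_iff x e).1 hc
    have hb : beta m x e = 0 := by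
      unfold beta
      simp [hD]
    funext i
    unfold F
    rw [hb]
    unfold f
    rw [if_pos hc]
    obtain ⟨⟨k, hk⟩, h0⟩ := hc
    by_cases hz : x 0 = 0
    · rw [if_pos hz]
      have : lam x = 1 := by unfold lam; rw [hz]; simp
      unfold fC
      rw [this]; ring
    · rw [if_neg hz]
      have hk0 : k ≠ 0 := by
        intro hh; apply hz; rw [hk 0, hh]; simp
      have : lam x = 0 := by
        unfold lam
        apply max_eq_left
        rw [hk 0]
        have : (1:ℝ) ≤ k := by exact_mod_cast Nat.one_le_iff_ne_zero.2 hk0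
        rw [abs_of_nonneg (by linarith)]
        linarith
      unfold fC
      rw [this]; ring
  · have hD : ∃ n, D n x e ≠ 0 := by
      by_contra hcon
      push Not at hcon
      exact hc ((C_iff x e).2 hcon)
    obtain ⟨n, hn⟩ := hD
    have hpos : 0 < D n x e := lt_of_le_of_ne (D_nonneg n x e) (Ne.symm hn)
    obtain ⟨M, hM⟩ := exists_nat_gt (1 / D n x e)
    refine ⟨max M (n+1), fun m hm => ?_⟩
    have hb : beta m x e = 1 := by
      unfold beta
      apply min_eq_left
      have h1 : D n x e ≤ ∑ j ∈ Finset.range m, D j x e := by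
        apply Finset.single_le_sum (f := fun j => D j x e) (fun j _ => D_nonneg j x e)
        exact Finset.mem_range.2 (by omega)
      have h2 : (M:ℝ) ≤ m := by exact_mod_cast (le_trans (le_max_left _ _) hm)
      have h3 : 1 < M * D n x e := by
        rwa [div_lt_iff₀ hpos] at hM
      have h4 : (M:ℝ) * D n x e ≤ m * ∑ j ∈ Finset.range m, D j x e := by
        apply mul_le_mul h2 h1 hpos.le (by positivity)
      linarith
    funext i
    unfold F f
    rw [hb, if_neg hc]; ring

/-! ### Part B: continuous functions on `βℕ` -/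

lemma bdd_of_eventually {g y : Seq} (hy : Bdd y) {N : ℕ} (h : ∀ n, N ≤ n → g n = y n) : Bdd g := by
  obtain ⟨K, hK⟩ := hy
  refine ⟨K + ∑ j ∈ Finset.range N, |g j|, fun n => ?_⟩
  have hK0 : 0 ≤ K := le_trans (abs_nonneg _) (hK 0)
  have hs : 0 ≤ ∑ j ∈ Finset.range N, |g j| := Finset.sum_nonneg fun j _ => abs_nonneg _
  by_cases hn : N ≤ n
  · rw [h n hn]; linarith [hK n]
  · have : |g n| ≤ ∑ j ∈ Finset.range N, |g j| :=
      Finset.single_le_sum (f := fun j => |g j|) (fun j _ => abs_nonneg _)
        (Finset.mem_range.2 (by omega))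
    linarith

lemma continuous_extend {g : Seq} (hg : Bdd g) : Continuous (Ultrafilter.extend g) := by
  obtain ⟨K, hK⟩ := hg
  have h : ∀ b : Ultrafilter ℕ, ∃ c, Tendsto g (comap pure (𝓝 b)) (𝓝 c) := by
    intro b
    have hmem : (Icc (-K) K) ∈ (b.map g) := by
      rw [Ultrafilter.mem_map]
      refine Filter.univ_mem' fun n => ?_
      exact abs_le.1 (hK n)
    obtain ⟨c, _, hc⟩ := isCompact_Icc.ultrafilter_le_nhds' (b.map g) hmem
    exact ⟨c, le_trans (map_mono (ultrafilter_comap_pure_nhds _)) hc⟩
  let _ : TopologicalSpace ℕ := ⊥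
  exact isDenseInducing_pure.continuous_extend h

lemma tendsto_extend {g : Seq} (hg : Bdd g) (q : Ultrafilter ℕ) :
    Tendsto g q (𝓝 (Ultrafilter.extend g q)) := by
  have h := ((continuous_extend hg).tendsto q).comp (Ultrafilter.tendsto_pure_self q)
  rwa [ultrafilter_extend_extends] at h

lemma extend_eq {g : Seq} (hg : Bdd g) {q : Ultrafilter ℕ} {c : ℝ} (h : Tendsto g q (𝓝 c)) :
    Ultrafilter.extend g q = c := tendsto_nhds_unique (tendsto_extend hg q) h

abbrev X := ℕ × Ultrafilter ℕ

abbrev p : Ultrafilter ℕ := hyperfilter ℕ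

abbrev Y := {y : X // y ≠ (0, p)}

lemma pure_ne_p (n : ℕ) : (pure n : Ultrafilter ℕ) ≠ p := by
  intro h
  have h1 : ({n} : Set ℕ) ∈ (pure n : Ultrafilter ℕ) := by simp
  rw [h] at h1
  exact Filter.notMem_hyperfilter_of_finite (Set.finite_singleton n) h1

def yp (i n : ℕ) : Y := ⟨(i, pure n), fun h => pure_ne_p n (congrArg Prod.snd h)⟩

lemma tendsto_Y (h : Cp Y) (y : Y) :
    Tendsto (fun n => h.1 (yp y.1.1 n)) y.1.2 (𝓝 (h.1 y)) := by
  have h1 : Tendsto (fun n => yp y.1.1 n) (y.1.2 : Filter ℕ) (𝓝 y) := by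
    rw [tendsto_subtype_rng]
    change Tendsto (fun n => ((y.1.1, pure n) : X)) (y.1.2 : Filter ℕ) (𝓝 y.1)
    rw [nhds_prod_eq]
    exact tendsto_const_nhds.prodMk (Ultrafilter.tendsto_pure_self _)
  have h2 : Continuous h.1 := h.2
  exact (h2.tendsto y).comp h1

lemma tendsto_X (h : Cp X) (y : X) :
    Tendsto (fun n => h.1 (y.1, pure n)) y.2 (𝓝 (h.1 y)) := by
  have h1 : Tendsto (fun n => ((y.1, pure n) : X)) (y.2 : Filter ℕ) (𝓝 y) := by
    rw [nhds_prod_eq]
    exact tendsto_const_nhds.prodMk (Ultrafilter.tendsto_pure_self _)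
  have h2 : Continuous h.1 := h.2
  exact (h2.tendsto y).comp h1

lemma two_free {φ : ℕ → ℕ} (hφ : StrictMono φ) :
    ∃ ρ : ℕ → ℕ, StrictMono ρ ∧ (hyperfilter ℕ).map (φ ∘ ρ) ≠ p := by
  by_contra hcon
  push Not at hcon
  have h0 := hcon (fun k => 2 * k) (fun a b h => by simp; omega)
  have h1 := hcon (fun k => 2 * k + 1) (fun a b h => by simp; omega)
  have m0 : range (φ ∘ fun k => 2 * k) ∈ p := by
    rw [← h0]; exact Filter.mem_map.2 (Filter.univ_mem' fun k => ⟨k, rfl⟩)
  have m1 : range (φ ∘ fun k => 2 * k + 1) ∈ p := by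
    rw [← h1]; exact Filter.mem_map.2 (Filter.univ_mem' fun k => ⟨k, rfl⟩)
  have hemp : range (φ ∘ fun k => 2 * k) ∩ range (φ ∘ fun k => 2 * k + 1) = ∅ := by
    ext m
    simp only [mem_inter_iff, mem_range, Function.comp, mem_empty_iff_false, iff_false, not_and,
      not_exists]
    rintro ⟨a, ha⟩ b hb
    have := hφ.injective (ha.trans hb.symm)
    omega
  have := Filter.inter_mem m0 m1
  rw [hemp] at this
  exact Filter.empty_notMem _ this

lemma bddY (h : Cp Y) (i : ℕ) : Bdd (fun n => h.1 (yp i n)) := by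
  by_contra hcon
  set g : Seq := fun n => h.1 (yp i n) with hg
  have hfreq : ∀ n : ℕ, ∃ᶠ k in atTop, (n : ℝ) < |g k| := by
    intro n
    by_contra hc
    rw [Filter.not_frequently] at hc
    rw [Filter.eventually_atTop] at hc
    obtain ⟨N, hN⟩ := hc
    apply hcon
    refine ⟨n + ∑ j ∈ Finset.range N, |g j|, fun k => ?_⟩
    have hs : 0 ≤ ∑ j ∈ Finset.range N, |g j| := Finset.sum_nonneg fun j _ => abs_nonneg _
    by_cases hk : N ≤ k
    · have := hN k hk
      linarith
    · have : |g k| ≤ ∑ j ∈ Finset.range N, |g j| :=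
        Finset.single_le_sum (f := fun j => |g j|) (fun j _ => abs_nonneg _)
          (Finset.mem_range.2 (by omega))
      have : (0:ℝ) ≤ n := by positivity
      linarith
  obtain ⟨φ, hφ, hφ'⟩ := extraction_forall_of_frequently hfreq
  obtain ⟨ρ, hρ, hne⟩ := two_free hφ
  set q : Ultrafilter ℕ := (hyperfilter ℕ).map (φ ∘ ρ) with hq
  have hlim := tendsto_Y h ⟨(i, q), fun hh => hne (congrArg Prod.snd hh)⟩
  have hlim2 : Tendsto (fun k => |g (φ (ρ k))|) (hyperfilter ℕ : Filter ℕ)
      (𝓝 |h.1 ⟨(i, q), fun hh => hne (congrArg Prod.snd hh)⟩|) := by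
    have : Tendsto (φ ∘ ρ) (hyperfilter ℕ : Filter ℕ) (q : Filter ℕ) := by
      rw [hq]; exact tendsto_map
    exact (hlim.comp this).abs
  have htop : Tendsto (fun k => |g (φ (ρ k))|) (hyperfilter ℕ : Filter ℕ) atTop := by
    have h1 : Tendsto (fun k => |g (φ (ρ k))|) atTop atTop := by
      refine tendsto_atTop_mono (fun k => ?_) tendsto_natCast_atTop_atTop
      have h2 := hφ' (ρ k)
      have h3 : (k : ℝ) ≤ ρ k := by exact_mod_cast hρ.id_le k
      linarith
    exact h1.mono_left Nat.hyperfilter_le_atTop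
  exact not_tendsto_nhds_of_tendsto_atTop htop _ hlim2

lemma not_sigmaCompact_Y : ¬ SigmaCompactSpace Y := by
  intro hs
  have key : ∀ n, ∃ A : Set ℕ, A ∈ p ∧ ∀ u : Ultrafilter ℕ, A ∈ u →
      ((0, u) : X) ∉ (Subtype.val '' (compactCovering Y n) : Set X) := by
    intro n
    have hcomp : IsCompact (Subtype.val '' (compactCovering Y n) : Set X) :=
      (isCompact_compactCovering Y n).image continuous_subtype_val
    have hopen : IsOpen ((fun u : Ultrafilter ℕ => ((0, u) : X)) ⁻¹'
        (Subtype.val '' (compactCovering Y n) : Set X)ᶜ) :=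
      hcomp.isClosed.isOpen_compl.preimage (by fun_prop)
    have hp : p ∈ ((fun u : Ultrafilter ℕ => ((0, u) : X)) ⁻¹'
        (Subtype.val '' (compactCovering Y n) : Set X)ᶜ) := by
      rintro ⟨y, _, hy⟩
      exact y.2 hy
    obtain ⟨V, ⟨A, rfl⟩, hpV, hV⟩ := ultrafilterBasis_is_basis.exists_subset_of_mem_open hp hopen
    exact ⟨A, hpV, fun u hu => hV hu⟩
  choose A hA hA' using key
  have hfreq : ∀ n : ℕ, ∃ᶠ k in atTop, ∀ i ≤ n, k ∈ A i := by
    intro n
    have h1 : ∀ᶠ k in (hyperfilter ℕ : Filter ℕ), ∀ i ≤ n, k ∈ A i := by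
      have : (⋂ i ∈ Finset.range (n+1), A i) ∈ (hyperfilter ℕ : Filter ℕ) :=
        (Filter.biInter_finset_mem _).2 fun i _ => hA i
      filter_upwards [this] with k hk i hi
      simp only [Finset.mem_range, mem_iInter] at hk
      exact hk i (by omega)
    exact h1.frequently.filter_mono Nat.hyperfilter_le_atTop
  obtain ⟨φ, hφ, hφ'⟩ := extraction_forall_of_frequently hfreq
  obtain ⟨ρ, hρ, hne⟩ := two_free hφ
  set q : Ultrafilter ℕ := (hyperfilter ℕ).map (φ ∘ ρ) with hq
  have hAq : ∀ n, A n ∈ q := by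
    intro n
    rw [hq]
    change (φ ∘ ρ) ⁻¹' A n ∈ (hyperfilter ℕ : Filter ℕ)
    apply Nat.hyperfilter_le_atTop
    filter_upwards [Filter.eventually_ge_atTop n] with k hk
    exact hφ' (ρ k) n (le_trans hk (hρ.id_le k))
  have hcov := iUnion_compactCovering Y
  have hy : (⟨(0, q), fun hh => hne (congrArg Prod.snd hh)⟩ : Y) ∈ (univ : Set Y) := mem_univ _
  rw [← hcov, mem_iUnion] at hy
  obtain ⟨n, hn⟩ := hy
  exact hA' n q (hAq n) ⟨_, hn, rfl⟩

/-! ### Part C: the two condensations -/

/-- continuous function on `X` from a sequence of bounded sequences -/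
def mk (y : ℕ → Seq) (hy : ∀ i, Bdd (y i)) : Cp X :=
  ⟨fun x => Ultrafilter.extend (y x.1) x.2, by
    change Continuous fun x : X => Ultrafilter.extend (y x.1) x.2
    exact continuous_prod_of_discrete_left.2 fun i => continuous_extend (hy i)⟩

lemma mk_pure (y : ℕ → Seq) (hy : ∀ i, Bdd (y i)) (i n : ℕ) : (mk y hy).1 (i, pure n) = y i n := by
  change Ultrafilter.extend (y i) (pure n) = y i n
  simp

/-- restriction -/
def res : Cp X →ₗ[ℝ] Cp Y where
  toFun g := ⟨fun y => g.1 y.1, (show Continuous g.1 from g.2).comp continuous_subtype_val⟩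
  map_add' _ _ := rfl
  map_smul' _ _ := rfl

lemma ext_X {g g' : Cp X} (h : ∀ i n, g.1 (i, pure n) = g'.1 (i, pure n)) : g = g' := by
  apply Subtype.ext
  funext x
  refine tendsto_nhds_unique (tendsto_X g x) ?_
  have := tendsto_X g' x
  refine this.congr fun n => (h _ _).symm

lemma ext_Y {g g' : Cp Y} (h : ∀ i n, g.1 (yp i n) = g'.1 (yp i n)) : g = g' := by
  apply Subtype.ext
  funext x
  refine tendsto_nhds_unique (tendsto_Y g x) ?_
  have := tendsto_Y g' x
  refine this.congr fun n => (h _ _).symm

lemma res_continuous : Continuous res := by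
  refine Continuous.subtype_mk ?_ _
  refine continuous_pi fun y => ?_
  exact (continuous_apply y.1).comp continuous_subtype_val

lemma res_bijective : Function.Bijective res := by
  constructor
  · intro g g' h
    apply ext_X
    intro i n
    exact congrFun (congrArg Subtype.val h) (yp i n)
  · intro h
    refine ⟨mk (fun i n => h.1 (yp i n)) (bddY h), ?_⟩
    apply ext_Y
    intro i n
    change (mk (fun i n => h.1 (yp i n)) (bddY h)).1 (i, pure n) = _
    rw [mk_pure]

def xs (h : Cp Y) : Seq := fun n => h.1 (yp 0 n)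
def ys (h : Cp Y) (i : ℕ) : Seq := fun n => h.1 (yp (i+1) n)
def es (h : Cp Y) : Seq := fun i => ys h i 0

def G (h : Cp Y) (i : ℕ) : Seq
  | 0 => f (xs h) (es h) i
  | n+1 => ys h i (n+1) + 2^(n+1) * (f (xs h) (es h) i - F n (xs h) (es h) i)

lemma G_eventually (h : Cp Y) (i : ℕ) : ∃ N, ∀ n, N ≤ n → G h i n = ys h i n := by
  obtain ⟨N, hN⟩ := F_eventually (xs h) (es h)
  refine ⟨N+1, fun n hn => ?_⟩
  obtain ⟨m, rfl⟩ : ∃ m, n = m + 1 := ⟨n-1, by omega⟩
  simp only [G]
  rw [hN m (by omega)]; ring

lemma G_bdd (h : Cp Y) (i : ℕ) : Bdd (G h i) := by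
  obtain ⟨N, hN⟩ := G_eventually h i
  exact bdd_of_eventually (bddY h (i+1)) hN

def out (h : Cp Y) (i : ℕ) : Seq := fun n => G h i n - (1/2) * G h i (n+1)

lemma out_bdd (h : Cp Y) (i : ℕ) : Bdd (out h i) := by
  obtain ⟨K, hK⟩ := G_bdd h i
  refine ⟨K + K, fun n => ?_⟩
  unfold out
  have h1 := abs_le.1 (hK n)
  have h2 := abs_le.1 (hK (n+1))
  rw [abs_le]
  constructor <;> nlinarith [abs_nonneg (G h i n), hK n]

def Psi (h : Cp Y) : Cp X := mk (out h) (out_bdd h)

lemma out_zero (h : Cp Y) (i : ℕ) : out h i 0 = F 0 (xs h) (es h) i - (1/2) * ys h i 1 := by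
  simp only [out, G]; ring

lemma out_succ (h : Cp Y) (i n : ℕ) : out h i (n+1) =
    ys h i (n+1) - (1/2) * ys h i (n+2) +
      2^(n+1) * (F (n+1) (xs h) (es h) i - F n (xs h) (es h) i) := by
  simp only [out, G]; ring

lemma out_free (h : Cp Y) (i : ℕ) {q : Ultrafilter ℕ} (hq : (q : Filter ℕ) ≤ cofinite) :
    Tendsto (out h i) q (𝓝 (h.1 ⟨(i+1, q), by simp⟩ - (1/2) * h.1 ⟨(i+1, q.map Nat.succ), by simp⟩)) := by
  have h1 := tendsto_Y h ⟨(i+1, q), by simp⟩
  have h2 := (tendsto_Y h ⟨(i+1, q.map Nat.succ), by simp⟩).comp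
    (show Tendsto Nat.succ (q : Filter ℕ) ((q.map Nat.succ : Ultrafilter ℕ) : Filter ℕ) from tendsto_map)
  have h3 := h1.sub (h2.const_mul (1/2))
  refine h3.congr' ?_
  obtain ⟨N, hN⟩ := G_eventually h i
  have h4 : ∀ᶠ n in (q : Filter ℕ), N ≤ n := by
    rw [Nat.cofinite_eq_atTop] at hq
    exact hq (Filter.eventually_ge_atTop N)
  filter_upwards [h4] with n hn
  unfold out
  rw [hN n hn, hN (n+1) (by omega)]
  rfl

lemma Psi_continuous : Continuous Psi := by
  have hx : Continuous xs := continuous_pi fun n => (continuous_apply _).comp continuous_subtype_val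
  have hy : ∀ i n, Continuous fun h => ys h i n := fun i n =>
    (continuous_apply _).comp continuous_subtype_val
  have he : Continuous es := continuous_pi fun i => hy i 0
  have hF : ∀ m i, Continuous fun h => F m (xs h) (es h) i := fun m i =>
    (continuous_apply i).comp ((continuous_F m).comp (hx.prodMk he))
  refine Continuous.subtype_mk ?_ _
  refine continuous_pi fun x => ?_
  obtain ⟨i, q⟩ := x
  change Continuous fun h => Ultrafilter.extend (out h i) q
  rcases q.le_cofinite_or_eq_pure with hq | ⟨n, rfl⟩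
  · have : (fun h => Ultrafilter.extend (out h i) q) = fun h : Cp Y =>
        h.1 ⟨(i+1, q), by simp⟩ - (1/2) * h.1 ⟨(i+1, q.map Nat.succ), by simp⟩ := by
      funext h
      exact extend_eq (out_bdd h i) (out_free h i hq)
    rw [this]
    refine Continuous.sub ?_ (Continuous.mul continuous_const ?_)
    · exact (continuous_apply _).comp continuous_subtype_val
    · exact (continuous_apply _).comp continuous_subtype_val
  · simp only [ultrafilter_extend_pure]
    rcases n with _ | n
    · simp only [out_zero]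
      exact (hF 0 i).sub (continuous_const.mul (hy i 1))
    · simp only [out_succ]
      exact ((hy i (n+1)).sub (continuous_const.mul (hy i (n+2)))).add
        (continuous_const.mul ((hF (n+1) i).sub (hF n i)))

lemma eq_zero_of_half {g : Seq} (hg : Bdd g) (h : ∀ n, g n - (1/2) * g (n+1) = 0) : ∀ n, g n = 0 := by
  obtain ⟨K, hK⟩ := hg
  intro n
  have h2 : ∀ k, g (n + k) = 2^k * g n := by
    intro k
    induction k with
    | zero => simp
    | succ k ih =>
      have := h (n+k)
      rw [← add_assoc, pow_succ]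
      linarith
  by_contra hne
  have hpos : 0 < |g n| := abs_pos.2 hne
  obtain ⟨k, hk⟩ := pow_unbounded_of_one_lt (K / |g n|) (one_lt_two)
  have h3 := hK (n+k)
  rw [h2 k, abs_mul, abs_of_pos (by positivity)] at h3
  rw [div_lt_iff₀ hpos] at hk
  linarith

lemma Psi_injective : Function.Injective Psi := by
  intro h h' heq
  have hout : ∀ i n, out h i n = out h' i n := by
    intro i n
    have := congrFun (congrArg Subtype.val heq) (i, pure n)
    unfold Psi at this
    rwa [mk_pure, mk_pure] at this
  have hG : ∀ i n, G h i n = G h' i n := by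
    intro i n
    have hb : Bdd (fun n => G h i n - G h' i n) := by
      obtain ⟨K, hK⟩ := G_bdd h i
      obtain ⟨K', hK'⟩ := G_bdd h' i
      exact ⟨K + K', fun n => le_trans (abs_sub _ _) (add_le_add (hK n) (hK' n))⟩
    have := eq_zero_of_half hb (fun n => by
      have := hout i n
      unfold out at this
      linarith) n
    linarith
  have hf : f (xs h) (es h) = f (xs h') (es h') := by
    funext i
    exact hG i 0
  obtain ⟨hx, he⟩ := f_injective (bddY h 0) (bddY h' 0) hf
  apply ext_Y
  intro i n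
  rcases i with _ | i
  · exact congrFun hx n
  · change ys h i n = ys h' i n
    rcases n with _ | n
    · exact congrFun he i
    · have := hG i (n+1)
      simp only [G] at this
      have hx' : xs h = xs h' := hx
      rw [hx', he] at this
      linarith

lemma Psi_surjective : Function.Surjective Psi := by
  intro k
  have hob : ∀ i, Bdd (fun n => k.1 (i, pure n)) := by
    intro i
    exact bddY (res k) i
  set o : ℕ → Seq := fun i n => k.1 (i, pure n) with ho
  have hsum : ∀ i n, Summable fun j : ℕ => (1/2:ℝ)^j * o i (n+j) := by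
    intro i n
    obtain ⟨K, hK⟩ := hob i
    refine Summable.of_norm_bounded (g := fun j : ℕ => (1/2:ℝ)^j * K)
      (summable_geometric_two.mul_right K) (fun j => ?_)
    rw [norm_mul, Real.norm_eq_abs, Real.norm_eq_abs, abs_of_nonneg (by positivity : (0:ℝ) ≤ (1/2)^j)]
    exact mul_le_mul_of_nonneg_left (hK _) (by positivity)
  set Gk : ℕ → Seq := fun i n => ∑' j : ℕ, (1/2:ℝ)^j * o i (n+j) with hGk
  have hGb : ∀ i, Bdd (Gk i) := by
    intro i
    obtain ⟨K, hK⟩ := hob i
    refine ⟨∑' j : ℕ, (1/2:ℝ)^j * K, fun n => ?_⟩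
    have h1 : ∀ j : ℕ, ‖(1/2:ℝ)^j * o i (n+j)‖ ≤ (1/2:ℝ)^j * K := by
      intro j
      rw [norm_mul, Real.norm_eq_abs, Real.norm_eq_abs, abs_of_nonneg (by positivity : (0:ℝ) ≤ (1/2)^j)]
      exact mul_le_mul_of_nonneg_left (hK _) (by positivity)
    rw [← Real.norm_eq_abs]
    exact tsum_of_norm_bounded (summable_geometric_two.mul_right K).hasSum h1
  have hrec : ∀ i n, Gk i n - (1/2) * Gk i (n+1) = o i n := by
    intro i n
    simp only [hGk]
    rw [(hsum i n).tsum_eq_zero_add]
    have : ∀ j : ℕ, (1/2:ℝ)^(j+1) * o i (n+(j+1)) = (1/2) * ((1/2:ℝ)^j * o i (n+1+j)) := by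
      intro j
      rw [show n + (j+1) = n+1+j by ring]; ring
    rw [tsum_congr this, tsum_mul_left]
    simp
  obtain ⟨x, e, hx, hxe⟩ := f_surjective (fun i => Gk i 0)
  let y : ℕ → Seq := fun i n => if n = 0 then e i else Gk i n - 2^n * (f x e i - F (n-1) x e i)
  have hyb : ∀ i, Bdd (y i) := by
    intro i
    obtain ⟨N, hN⟩ := F_eventually x e
    refine bdd_of_eventually (hGb i) (N := N+1) fun n hn => ?_
    simp only [y]
    rw [if_neg (by omega), hN (n-1) (by omega)]; ring
  let z : ℕ → Seq := fun i => Nat.rec x (fun i _ => y i) i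
  have hzb : ∀ i, Bdd (z i) := by
    intro i
    rcases i with _ | i
    · exact hx
    · exact hyb i
  refine ⟨res (mk z hzb), ?_⟩
  have e1 : xs (res (mk z hzb)) = x := by
    funext n
    exact mk_pure z hzb 0 n
  have e2 : ∀ i n, ys (res (mk z hzb)) i n = y i n := by
    intro i n
    exact mk_pure z hzb (i+1) n
  have e3 : es (res (mk z hzb)) = e := by
    funext i
    unfold es
    rw [e2]
    simp [y]
  have e4 : ∀ i n, G (res (mk z hzb)) i n = Gk i n := by
    intro i n
    rcases n with _ | n
    · simp only [G]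
      rw [e1, e3, hxe]
    · simp only [G]
      rw [e1, e3, e2]
      simp only [y]
      rw [if_neg (by omega)]
      simp
  apply ext_X
  intro i n
  unfold Psi
  rw [mk_pure]
  unfold out
  rw [e4, e4, hrec]

end

end Pool.Agent.Helper20.CpCondense
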